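import Mathlib

/-!
An idempotent on a Hilbert C*-module satisfying the ternary identity which is not the corner of
any blockwise conditional expectation between the reduced linking algebras.
-/

open Topology ComplexOrder

namespace Pool.Agent.Results.MP_0a1256_an.NonContractive

/-- A right Hilbert `B`-module structure on the normed space `E` (which is complete in the theorem
below): a right action `act x b = x b` and a `B`-valued inner product `inn x y = ⟨x, y⟩`, linear in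
the second variable, with `‖x‖ ^ 2 = ‖⟨x, x⟩‖`. -/
structure HilbertModule (B E : Type*) [NonUnitalCStarAlgebra B] [PartialOrder B]
    [NormedAddCommGroup E] [NormedSpace ℂ E] where
  /-- the right action `x b` -/
  act : E → B → E
  /-- the inner product `⟨x, y⟩` -/
  inn : E → E → B
  act_add : ∀ x b c, act x (b + c) = act x b + act x c
  add_act : ∀ x y b, act (x + y) b = act x b + act y b
  act_smul : ∀ (k : ℂ) x b, act x (k • b) = k • act x b
  smul_act : ∀ (k : ℂ) x b, act (k • x) b = k • act x b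
  act_mul : ∀ x b c, act x (b * c) = act (act x b) c
  inn_add : ∀ x y z, inn x (y + z) = inn x y + inn x z
  inn_smul : ∀ (k : ℂ) x y, inn x (k • y) = k • inn x y
  inn_act : ∀ x y b, inn x (act y b) = inn x y * b
  star_inn : ∀ x y, star (inn x y) = inn y x
  inn_nonneg : ∀ x, 0 ≤ inn x x
  norm_sq : ∀ x, ‖x‖ ^ 2 = ‖inn x x‖

namespace HilbertModule

variable {B E : Type*} [NonUnitalCStarAlgebra B] [PartialOrder B]
  [NormedAddCommGroup E] [NormedSpace ℂ E] (H : HilbertModule B E)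

/-- `F` is a closed ternary subspace of `E`. -/
def IsClosedTernary (F : Submodule ℂ E) : Prop :=
  IsClosed (F : Set E) ∧ ∀ x ∈ F, ∀ y ∈ F, ∀ z ∈ F, H.act x (H.inn y z) ∈ F

/-- The closed span of `⟨F, F⟩` in `B`. -/
noncomputable def coeffs (F : Submodule ℂ E) : Submodule ℂ B :=
  (Submodule.span ℂ {b : B | ∃ x ∈ F, ∃ y ∈ F, b = H.inn x y}).topologicalClosure

/-- The closed span of the operators `x y^* : z ↦ x ⟨y, z⟩`, with `x, y ∈ F`, in the bounded
operators on `E`. -/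
noncomputable def compacts (F : Submodule ℂ E) : Submodule ℂ (E →L[ℂ] E) :=
  (Submodule.span ℂ {T : E →L[ℂ] E | ∃ x ∈ F, ∃ y ∈ F, ∀ z, T z = H.act x (H.inn y z)}
    ).topologicalClosure

/-- `T` is the block operator on `B ⊕ E` with rows `(b, x^*)` and `(y, k)`, that is,
`T (c, z) = (b c + ⟨x, z⟩, y c + k z)`. -/
def IsBlock (T : (B × E) →ₗ[ℂ] (B × E)) (b : B) (x y : E) (k : E →L[ℂ] E) : Prop :=
  ∀ (c : B) (z : E), T (c, z) = (b * c + H.inn x z, H.act y c + k z)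

/-- The norm of the Hilbert module `B ⊕ E`: `‖(c, z)‖ ^ 2 = ‖c^* c + ⟨z, z⟩‖`. -/
noncomputable def hnorm (p : B × E) : ℝ := Real.sqrt ‖star p.1 * p.1 + H.inn p.2 p.2‖

/-- The reduced linking algebra formed from the ternary subspace `F` of `E`: all the block
operators on `B ⊕ E` with entries in the closed span of `⟨F, F⟩`, in `F^*`, in `F` and in the
closed span of the operators `x y^*`, `x, y ∈ F`.  For `F = E` it is the reduced linking algebra
of `E`. -/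
def Linking (F : Submodule ℂ E) : Set ((B × E) →ₗ[ℂ] (B × E)) :=
  {T | ∃ b ∈ H.coeffs F, ∃ x ∈ F, ∃ y ∈ F, ∃ k ∈ H.compacts F, H.IsBlock T b x y k}

/-- `Φ` is a blockwise conditional expectation of the reduced linking algebra of `E` onto the
one of the closed ternary subspace `F`: it is linear on the linking algebra of `E`, maps it into
the linking algebra of `F`, is the identity on the latter (so it is idempotent, with range the
linking algebra of `F`), is contractive for the operator norm of the Hilbert module `B ⊕ E` (so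
it has norm one unless `F = 0`), and sends each of the four corners into the same corner. -/
structure IsBlockwiseCondExp (F : Submodule ℂ E)
    (Φ : ((B × E) →ₗ[ℂ] (B × E)) → ((B × E) →ₗ[ℂ] (B × E))) : Prop where
  map_add : ∀ S ∈ H.Linking ⊤, ∀ T ∈ H.Linking ⊤, Φ (S + T) = Φ S + Φ T
  map_smul : ∀ (c : ℂ), ∀ T ∈ H.Linking ⊤, Φ (c • T) = c • Φ T
  maps : ∀ T ∈ H.Linking ⊤, Φ T ∈ H.Linking F
  fixes : ∀ T ∈ H.Linking F, Φ T = T
  contractive : ∀ T ∈ H.Linking ⊤, ∀ C : ℝ, 0 ≤ C → (∀ p, H.hnorm (T p) ≤ C * H.hnorm p) →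
    ∀ p, H.hnorm (Φ T p) ≤ C * H.hnorm p
  corner11 : ∀ T ∈ H.Linking ⊤, ∀ b, H.IsBlock T b 0 0 0 → ∃ b', H.IsBlock (Φ T) b' 0 0 0
  corner12 : ∀ T ∈ H.Linking ⊤, ∀ x, H.IsBlock T 0 x 0 0 → ∃ x', H.IsBlock (Φ T) 0 x' 0 0
  corner21 : ∀ T ∈ H.Linking ⊤, ∀ y, H.IsBlock T 0 0 y 0 → ∃ y', H.IsBlock (Φ T) 0 0 y' 0
  corner22 : ∀ T ∈ H.Linking ⊤, ∀ k, H.IsBlock T 0 0 0 k → ∃ k', H.IsBlock (Φ T) 0 0 0 k'

/-- `𝔼` is a conditional expectation of `E` onto `F`: the restriction to the `21`-corner of a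
blockwise conditional expectation. -/
def IsCondExp (F : Submodule ℂ E) (𝔼 : E →ₗ[ℂ] E) : Prop :=
  ∃ Φ, H.IsBlockwiseCondExp F Φ ∧
    ∀ (y : E) (T : (B × E) →ₗ[ℂ] (B × E)), H.IsBlock T 0 0 y 0 → H.IsBlock (Φ T) 0 0 (𝔼 y) 0

end HilbertModule

/-- The C*-algebra `ℂ²` as a right Hilbert module over itself, `⟨x, y⟩ = x^* y`. -/
noncomputable def H : HilbertModule (ℂ × ℂ) (ℂ × ℂ) where
  act x b := x * b
  inn x y := star x * y
  act_add := mul_add
  add_act := add_mul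
  act_smul k x b := mul_smul_comm k x b
  smul_act k x b := smul_mul_assoc k x b
  act_mul x b c := (mul_assoc x b c).symm
  inn_add x y z := mul_add _ _ _
  inn_smul k x y := mul_smul_comm k _ _
  inn_act x y b := (mul_assoc _ _ _).symm
  star_inn x y := by rw [star_mul, star_star]
  inn_nonneg x := by
    rw [Prod.le_def]
    constructor
    · exact star_mul_self_nonneg x.1
    · exact star_mul_self_nonneg x.2
  norm_sq x := by rw [CStarRing.norm_star_mul_self, sq]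

/-- The idempotent `(a, b) ↦ (2 a - b) (1, 1)`. -/
noncomputable def 𝔼 : (ℂ × ℂ) →ₗ[ℂ] (ℂ × ℂ) where
  toFun x := (2 * x.1 - x.2) • (1 : ℂ × ℂ)
  map_add' x y := by
    rw [← add_smul]; congr 1; simp; ring
  map_smul' k x := by
    rw [RingHom.id_apply, smul_smul]; congr 1; simp; ring

lemma 𝔼_apply (x : ℂ × ℂ) : 𝔼 x = (2 * x.1 - x.2) • (1 : ℂ × ℂ) := rfl

/-- The line spanned by the unit. -/
noncomputable def F : Submodule ℂ (ℂ × ℂ) := Submodule.span ℂ {(1 : ℂ × ℂ)}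

lemma mem_F {x : ℂ × ℂ} : x ∈ F ↔ ∃ k : ℂ, k • (1 : ℂ × ℂ) = x := Submodule.mem_span_singleton

lemma closedTernary : H.IsClosedTernary F := by
  refine ⟨Submodule.closed_of_finiteDimensional F, ?_⟩
  intro x hx y hy z hz
  obtain ⟨a, rfl⟩ := mem_F.1 hx
  obtain ⟨b, rfl⟩ := mem_F.1 hy
  obtain ⟨c, rfl⟩ := mem_F.1 hz
  refine mem_F.2 ⟨a * (star b * c), ?_⟩
  ext <;> simp [H] <;> ring

lemma block21_mem (y : ℂ × ℂ) (T : ((ℂ × ℂ) × (ℂ × ℂ)) →ₗ[ℂ] ((ℂ × ℂ) × (ℂ × ℂ)))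
    (hT : H.IsBlock T 0 0 y 0) : T ∈ H.Linking ⊤ :=
  ⟨0, Submodule.zero_mem _, 0, Submodule.mem_top, y, Submodule.mem_top, 0,
    Submodule.zero_mem _, hT⟩

/-- **Negative answer.**  There are a C*-algebra `B`, a (complete) right Hilbert `B`-module `E`, a
closed ternary subspace `F` and a linear idempotent `𝔼` of `E` onto `F` satisfying
`𝔼 (𝔼 x ⟨y, 𝔼 z⟩) = 𝔼 x ⟨𝔼 y, 𝔼 z⟩` which is not contractive, and hence is not a conditional
expectation of `E` onto `F`.  Here `B = E = ℂ²` and `𝔼 (a, b) = (2 a - b) (1, 1)`. -/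
theorem result :
    ∃ (H : HilbertModule (ℂ × ℂ) (ℂ × ℂ)) (F : Submodule ℂ (ℂ × ℂ))
      (𝔼 : (ℂ × ℂ) →ₗ[ℂ] (ℂ × ℂ)),
      (∀ x b, H.act x b = x * b) ∧ (∀ x y, H.inn x y = star x * y) ∧
      H.IsClosedTernary F ∧ (∀ x, 𝔼 (𝔼 x) = 𝔼 x) ∧ LinearMap.range 𝔼 = F ∧
      (∀ x y z, 𝔼 (H.act (𝔼 x) (H.inn y (𝔼 z))) = H.act (𝔼 x) (H.inn (𝔼 y) (𝔼 z))) ∧
      (∃ x, ‖x‖ = 1 ∧ ‖𝔼 x‖ = 3) ∧ ¬ H.IsCondExp F 𝔼 := by
  have hx1 : ‖((1, -1) : ℂ × ℂ)‖ = 1 := by simp [Prod.norm_def]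
  have hx3 : ‖𝔼 ((1, -1) : ℂ × ℂ)‖ = 3 := by
    have : 𝔼 ((1, -1) : ℂ × ℂ) = ((3, 3) : ℂ × ℂ) := by
      rw [𝔼_apply]
      ext <;> norm_num
    rw [this]
    simp [Prod.norm_def]
  refine ⟨H, F, 𝔼, fun _ _ => rfl, fun _ _ => rfl, closedTernary, ?_, ?_, ?_,
    ⟨_, hx1, hx3⟩, ?_⟩
  · intro x
    rw [𝔼_apply x, map_smul, 𝔼_apply 1]
    norm_num
  · ext x
    rw [LinearMap.mem_range, mem_F]
    constructor
    · rintro ⟨y, rfl⟩
      exact ⟨_, rfl⟩
    · rintro ⟨k, rfl⟩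
      refine ⟨k • 1, ?_⟩
      rw [map_smul, 𝔼_apply 1]
      norm_num
  · intro x y z
    simp only [𝔼_apply, H]
    ext <;> simp <;> ring
  · rintro ⟨Φ, hΦ, h21⟩
    -- the block operator with `21` entry `(1, -1)`
    let T : ((ℂ × ℂ) × (ℂ × ℂ)) →ₗ[ℂ] ((ℂ × ℂ) × (ℂ × ℂ)) :=
      { toFun := fun p => (0, ((1, -1) : ℂ × ℂ) * p.1)
        map_add' := fun p q => by ext <;> simp [mul_add]
        map_smul' := fun k p => by ext <;> simp }
    have hT : H.IsBlock T 0 0 ((1, -1) : ℂ × ℂ) 0 := by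
      intro c z
      show ((0 : ℂ × ℂ), ((1, -1) : ℂ × ℂ) * c) = _
      ext <;> simp [H]
    have hTm := block21_mem _ T hT
    have hnT : ∀ p, H.hnorm (T p) ≤ 1 * H.hnorm p := by
      intro p
      rw [one_mul]
      refine Real.sqrt_le_sqrt ?_
      have h1 : star (T p).1 * (T p).1 + H.inn (T p).2 (T p).2 = star p.1 * p.1 := by
        show star (0 : ℂ × ℂ) * 0 + star (((1, -1) : ℂ × ℂ) * p.1) * (((1, -1) : ℂ × ℂ) * p.1) = _
        ext <;> simp
      rw [h1]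
      have h2 : ∀ u v : ℂ, ‖star u * u‖ ≤ ‖star u * u + star v * v‖ := by
        intro u v
        have h3 : star u * u + star v * v = ((‖u‖ ^ 2 + ‖v‖ ^ 2 : ℝ) : ℂ) := by
          push_cast
          rw [← Complex.conj_mul', ← Complex.conj_mul']
          rfl
        have h4 : ‖star u * u‖ = ‖u‖ ^ 2 := by rw [norm_mul, norm_star, sq]
        rw [h3, h4, Complex.norm_real, Real.norm_eq_abs, abs_of_nonneg (by positivity)]
        nlinarith [sq_nonneg ‖v‖]
      rw [Prod.norm_def, Prod.norm_def]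
      exact max_le_max (h2 p.1.1 p.2.1) (h2 p.1.2 p.2.2)
    have h5 := hΦ.contractive T hTm 1 zero_le_one hnT ((1, 0) : (ℂ × ℂ) × (ℂ × ℂ))
    have h6 := h21 _ T hT 1 0
    rw [h6] at h5
    have h7 : H.hnorm ((0 : ℂ × ℂ) * 1 + H.inn 0 0, H.act (𝔼 (1, -1)) 1 + (0 : (ℂ × ℂ) →L[ℂ] (ℂ × ℂ)) 0)
        = 3 := by
      have h8 : star ((0 : ℂ × ℂ) * 1 + H.inn 0 0) * ((0 : ℂ × ℂ) * 1 + H.inn 0 0)
          + H.inn (H.act (𝔼 (1, -1)) 1 + (0 : (ℂ × ℂ) →L[ℂ] (ℂ × ℂ)) 0)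
            (H.act (𝔼 (1, -1)) 1 + (0 : (ℂ × ℂ) →L[ℂ] (ℂ × ℂ)) 0)
          = star (𝔼 (1, -1)) * 𝔼 (1, -1) := by
        simp [H]
      rw [HilbertModule.hnorm]
      simp only [h8]
      rw [CStarRing.norm_star_mul_self, hx3]
      rw [Real.sqrt_mul_self (by norm_num)]
    have h9 : H.hnorm ((1, 0) : (ℂ × ℂ) × (ℂ × ℂ)) = 1 := by
      rw [HilbertModule.hnorm]
      simp [H]
    rw [h7, h9] at h5
    norm_num at h5

end Pool.Agent.Results.MP_0a1256_an.NonContractive
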